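import Pool.Agent.X260.EN.Sp

/-!
# The spaces of ends of `ℤ^{*ℕ}` and `(ℤ²)^{*ℕ}` are homeomorphic

There is even a bijection between the two groups that carries commensurated subsets to
commensurated subsets.  Both groups are identified, as sets, with the set of finite sequences of
pairs of natural numbers, in such a way that the commensurated subsets become the same family.
-/

set_option autoImplicit false

namespace Pool.Agent.Results.MP_3ac48a_al.EndsHomeomorphic

open Pool.Agent.X260.EN

/-- The spaces of ends of the free group on countably many generators (given as `ℤ^{*ℕ}` and as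
`FreeGroup ℕ`) and of `(ℤ²)^{*ℕ}` are homeomorphic; there is a bijection between the groups which
carries commensurated subsets to commensurated subsets in both directions. -/
theorem result :
    Nonempty (EndSpace (Monoid.CoprodI (fun _ : ℕ => Multiplicative ℤ)) ≃ₜ
      EndSpace (Monoid.CoprodI (fun _ : ℕ => Multiplicative (ℤ × ℤ)))) ∧
    Nonempty (EndSpace (FreeGroup ℕ) ≃ₜ
      EndSpace (Monoid.CoprodI (fun _ : ℕ => Multiplicative (ℤ × ℤ)))) ∧
    ∃ f : FreeGroup ℕ ≃ Monoid.CoprodI (fun _ : ℕ => Multiplicative (ℤ × ℤ)),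
      ∀ A : Set (Monoid.CoprodI (fun _ : ℕ => Multiplicative (ℤ × ℤ))),
        Commensurated A ↔ Commensurated (f ⁻¹' A) := by
  obtain ⟨D⟩ := exists_dZ2
  obtain ⟨f, hf⟩ := hd_hd dZ D
  have hg : ∀ A : Set (Monoid.CoprodI (fun _ : ℕ => Multiplicative (ℤ × ℤ))),
      Commensurated A ↔ Commensurated ((frE.toEquiv.trans f) ⁻¹' A) := by
    intro A
    rw [hf A, iso_comm frE (f ⁻¹' A)]
    rfl
  exact ⟨⟨homeo f hf⟩, ⟨homeo (frE.toEquiv.trans f) hg⟩, frE.toEquiv.trans f, hg⟩

end Pool.Agent.Results.MP_3ac48a_al.EndsHomeomorphic
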